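import Pool.Agent.Lib.P435f72.Large

/-!
`PS s < n` holds for all strings `s` of length `n` exactly when `n ≤ 6`.
In particular the answer to Q1 is negative.
-/

namespace Pool.Agent.Results.MP_435f72_co.Threshold

open Pool.Agent.Lib.P435f72

/-- For `n ≥ 1`: every string `s` of length `n`, over every alphabet, satisfies `PS s < n`
if and only if `n ≤ 6`. -/
theorem result (n : ℕ) (hn : 1 ≤ n) :
    (∀ (α : Type) (s : List α), s.length = n → PS s < n) ↔ n ≤ 6 := by
  constructor
  · intro h
    by_contra hcon
    obtain ⟨s, hs, hPS⟩ := exists_large n (by omega)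
    exact absurd (h ℕ s hs) (by omega)
  · intro h6 α s hs
    subst hs
    exact PS_lt_of_length_le_six s hn h6

end Pool.Agent.Results.MP_435f72_co.Threshold
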